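import Pool.Agent.Helper80.AD.All

/-!
# Higher arithmetic degrees exist for all regular polynomial automorphisms

Problem MP_6af536_nt.  Let `p` be a polynomial automorphism of the affine space `𝔸^N` over a number field `K ⊂ ℂ` with the
inverse `q`, of degrees `≤ d`, `≤ e` (`d, e ≥ 2`), which is regular: the parts of degree `d` of `p` and of degree `e` of
`q` have no common zero in `ℂ^N` except `0` (the indeterminacy loci of `p` and `q` in `ℙ^N` are disjoint).  Examples: Henon
maps and their compositions.  It is a birational self-map of `ℙ^N` with nonempty indeterminacy locus.  Let `V` be an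
irreducible subvariety of dimension `k` that meets `𝔸^N`: the `K`-closure of `x 0 ∈ ℂ^N`; `x n = p^n (x 0)`, and

  `b_n = [K(V) : K(p^n V)] (h (p^n V) + deg (p^n V))`

(the field degree is one).  Then there is `α = d^i / e^j ≥ 1`, `i + j = k` or `k + 1`, such that `c₁ α^n ≤ b_n ≤ c₂ α^n`.
In particular, `D_n^(1/n) → α` for every sequence `D_n` comparable to `b_n`, such as `D_n = \hat{deg}_{k+1} (F^n, 𝒱)`.

## Proof

Mixed heights of `k + 1` points over the function field of `V` are made exact by a limit over coordinatewise powers.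
Their positivity (product formulas) extends them to a monotone multilinear functional on local height functions.
At every place the local heights of `x n` are `d^n θ + e^(-n) η` up to constants (Nullstellensatz at infinity), with the
local Green functions `θ`, `η`, which are limits of local heights of the points `x n`, `n → ∞` and `n → -∞`.
-/

set_option autoImplicit false

open Filter Topology MvPolynomial

namespace Pool.Agent.Results.MP_6af536_nt.AffineAutomorphisms

open Pool.Agent.Helper80.HD Pool.Agent.Helper80.AD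

theorem result (K : Type) [Field K] [NumberField K] [Algebra K ℂ] (N : ℕ)
    (p q : Fin N → MvPolynomial (Fin N) K) (hpq : ∀ i, aeval p (q i) = X i) (hqp : ∀ i, aeval q (p i) = X i)
    (d e : ℕ) (hd : 2 ≤ d) (he : 2 ≤ e) (hdp : ∀ i, (p i).totalDegree ≤ d) (heq : ∀ i, (q i).totalDegree ≤ e)
    (hreg : ∀ y : Fin N → ℂ, (∀ i, aeval y (homogeneousComponent d (p i)) = 0) →
      (∀ i, aeval y (homogeneousComponent e (q i)) = 0) → y = 0)
    (x : ℕ → Fin N → ℂ) (hx : ∀ n i, x (n + 1) i = aeval (x n) (p i))
    (k : ℕ) (hk : Algebra.trdeg K (ratioField K (aff (x 0))) = k) :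
    ∃ α : ℝ, 1 ≤ α ∧
      (∃ i j : ℕ, (i + j = k ∨ i + j = k + 1) ∧ α = (d : ℝ) ^ i / (e : ℝ) ^ j) ∧
      (∃ c₁ c₂ : ℝ, 0 < c₁ ∧ ∀ n : ℕ, c₁ * α ^ n ≤ arithDeg K k (fun n => aff (x n)) n ∧
        arithDeg K k (fun n => aff (x n)) n ≤ c₂ * α ^ n) ∧
      ∀ D : ℕ → ℝ,
        (∃ c₁ c₂ : ℝ, 0 < c₁ ∧ 0 < c₂ ∧ ∀ n, c₁ * arithDeg K k (fun n => aff (x n)) n ≤ D n ∧
          D n ≤ c₂ * arithDeg K k (fun n => aff (x n)) n) →
        Tendsto (fun n : ℕ => D n ^ (1 / (n : ℝ))) atTop (𝓝 α) :=
  affine K N p q d e x k hpq hqp hd he hdp heq hreg hx hk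

end Pool.Agent.Results.MP_6af536_nt.AffineAutomorphisms
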