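import Pool.Agent.Helper10.GO.AllS

/-!
# Existence of the higher arithmetic degrees of subvarieties for arbitrary rational self-maps

Problem MP_6af536_nt.  Let `K ⊂ ℂ` be a number field, `X ⊂ ℙ^N` a projective set over `K`, `f` an arbitrary rational self-map
of `X` over `K` (`RatMap`), `V` a subvariety of dimension `k` with well-defined orbit (the `K`-closure of `x 0`; `f` is defined
at all points `x n = f^n (x 0)`), `V_n = f^n (V)` the `K`-closure of `x n`, and

  `b_n = [K(V) : K(V_n)] (h (V_n) + deg V_n)`

(`arithDeg`; it is `\hat{deg}_{k+1} (F^n, 𝒱)` up to constant factors).  The definitions are in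
`Pool/Agent/Helper10/GO/Stmt.lean` and `Pool/Agent/Helper80/HD/Stmt.lean`.

## The theorem

(1) The limit `α` of `D_n^(1/n)` exists for all sequences `D_n` comparable to `b_n` in each of the following cases.

* `DML`: for every form `E` over `K` the set `{n : V_n ⊂ {E = 0}}` is eventually periodic.  This is a property of the orbit.
  It holds trivially for the generic orbits (every proper closed subset of `X` contains only finitely many `V_n`), and always if
  the dynamical Mordell-Lang conjecture for rational maps is true.
* The `K`-closure of the orbit has dimension at most `k + 1`; for example `k ≥ dim X - 1` (all `V`, all `f`).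
* `V` meets an open subset `U` of `X` over `K` with `f(U) ⊂ U` on which `f` is unramified; for example all étale self-maps of
  quasi-projective varieties (here `DML` is a theorem of Bell, Ghioca and Tucker, which is proved here).

(2) If a progression `V_b, V_(a+b), V_(2a+b), …` is generic in a closed set `Z` (by Noetherianity this is so for some `a`, `b`, `Z`
if `DML` holds), then `α^a` is a product of `k + 1` elements of `{1} ∪ M`, where `M` is a finite set of at most `dim Z` positive
numbers which depends only on `f`, `a`, `Z` (unless `b_n = 0` for large `n`).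

## Proof

The mixed heights `U(Y_0, …, Y_k)` of `k + 1` points over the function field of `V` are used, `b_n ≍ U(x_n, …, x_n)`.
*Volumes.*  `v_m(a, e) = lim_t t^(-d) dim (X_0^(at) X_m^(et))`, `X_m` the span of the coordinates of the `m`-th image of the generic point of
`Z`.  The inequality of Petridis for dimensions of products of subspaces of a field gives the submultiplicativity
`v_(n+m)(a, e) b^d ≤ d! v_n(a, b) v_m(b, e)`, so `G(σ) = lim (1/n) log v_n(e^(nσ), 1)` exists and is piecewise linear; `Λ` is the set of
its break points and `M = exp Λ`.  Where `G` is linear, an upper bound for the volumes of three spans gives a section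
`s (x_m)^b ∈ X_0^A X_m^B X_2m^E` with `B ≤ b/2` and `A, E` small.  *Transfer.*  The section gives inequalities for the mixed heights in each
slot: if the slope of `log U` over `[n, n+m]` is greater than `σ₁` then the slope over `[n+m, n+2m]` is at least `σ₂`, for every gap
`(σ₁, σ₂)` of `Λ ∪ {0}`.  *Analysis.*  Every blow-down of `log U` on the orthant is a maximum of finitely many linear functions with
gradients in `(Λ ∪ {0})^(k+1)`, and a last exit argument on the diagonal gives the limit.
-/

set_option autoImplicit false

open Filter Topology MvPolynomial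

namespace Pool.Agent.Results.MP_6af536_nt.DynamicalMordellLang

open Pool.Agent.Helper80.HD Pool.Agent.Helper10.GOS

theorem result (K : Type) [Field K] [NumberField K] [Algebra K ℂ] (N : ℕ) (f : RatMap K N) :
    (∀ (k : ℕ) (x : ℕ → Fin (N + 1) → ℂ), f.IsOrbit x → Algebra.trdeg K (ratioField K (x 0)) = k →
      (DML K x ∨ (∀ y, InClosure K x y → Algebra.trdeg K (ratioField K y) ≤ (k : Cardinal) + 1) ∨
        ∃ (r : ℕ) (P : Fin r → MvPolynomial (Fin (N + 1)) K), (∀ c, ∃ e : ℕ, 1 ≤ e ∧ (P c).IsHomogeneous e) ∧
          (∃ c, aeval (x 0) (P c) ≠ 0) ∧ UnrOn f P) →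
      ∃ α : ℝ, (1 ≤ α ∨ α = 0 ∧ ∀ᶠ n in atTop, arithDeg K k x n = 0) ∧ ∀ D : ℕ → ℝ, Cmp D (arithDeg K k x) →
        Tendsto (fun n : ℕ => D n ^ (1 / (n : ℝ))) atTop (𝓝 α)) ∧
    ∀ (a : ℕ) (η : Fin (N + 1) → ℂ), 1 ≤ a → η ≠ 0 →
      ∃ M : Finset ℝ, (M.card : Cardinal) ≤ Algebra.trdeg K (ratioField K η) ∧ (∀ m ∈ M, 0 < m) ∧
        ∀ (k b : ℕ) (x : ℕ → Fin (N + 1) → ℂ), f.IsOrbit x → Algebra.trdeg K (ratioField K (x 0)) = k →
          GenericAt K η x a b →
          (∀ᶠ n in atTop, arithDeg K k x n = 0) ∨ ∃ l : Fin (k + 1) → ℝ, (∀ i, l i ∈ insert 1 M) ∧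
            ∀ D : ℕ → ℝ, Cmp D (arithDeg K k x) →
              Tendsto (fun n : ℕ => D n ^ (1 / (n : ℝ))) atTop (𝓝 ((∏ i, l i) ^ (1 / (a : ℝ)))) :=
  final K N f

end Pool.Agent.Results.MP_6af536_nt.DynamicalMordellLang
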