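import Pool.Agent.Helper80.HD.Final2

/-!
# Higher arithmetic degrees exist for regular self-maps

Problem MP_6af536_nt.  Let `X ⊂ ℙ^N` be a projective set over a number field `K ⊂ ℂ`, `f : X → X` a regular map over
`K`, given by finitely many local formulas (`RMap`), and let `⊗ (f^i)^* O(a_i)` be trivial on `X` (`Triv`) for some
integers `a_0, …, a_m`, `a_m ≠ 0`.  Such a relation always exists: the Néron–Severi group is finitely generated, and `f^*`
on the algebraic group `Pic^0 X` is the root of a polynomial with integer coefficients.  Let `V ⊂ X` be an irreducible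
subvariety of dimension `k` over `K`, the `K`-closure of a point `x 0 ∈ X(ℂ)`, and let `x n = f^n (x 0)`, so that the
`K`-closure of `x n` is `f^n(V)`.  Put

  `a_n = [K(V) : K(f^n V)] (h (f^n V) + deg (f^n V))`,

`h` the height of the Chow form.  Then there is `α` such that `D_n^(1/n) → α` for every sequence `D_n` which is comparable
up to constant factors to `a_n`.  Such a sequence is `D_n = \hat{deg}_{k+1} (F^n, 𝒱)`, for every ample Hermitian
line bundle on every model, and its limit is the arithmetic degree `α_{k+1}(f, V)` of the problem.  Moreover,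
either `α = 0` and `a_n = 0` for large `n` (`dim f^n(V) < dim V`), or `α ≥ 1` is the modulus of a product of `k` or of
`k + 1` roots of `∑ a_i X^i` (in particular, `α` is algebraic, and there are finitely many possible values for given
`f` and `k`), and `c α^n ≤ a_n ≤ C (n+1)^r α^n` with `r` depending only on `m` and `k`.

## Proof

The mixed heights and degrees of `k + 1` points of the orbit `x_{j_0}, …, x_{j_k}` (heights of mixed resultant forms)
satisfy, in each index, the linear recurrence given by the relation in `Pic X`, up to an error bounded by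
the degrees.  This is proved by elimination theory, the product formulas of `K` and of the function fields of the generic
linear sections, the Nullstellensatz over valued fields, and Mahler measures at the archimedean places.  The mixed
heights are bounded by those of the diagonal, and perturbed linear recurrences have regular growth.
-/

set_option autoImplicit false

open Filter Topology

namespace Pool.Agent.Results.MP_6af536_nt.RegularSelfMaps

open Pool.Agent.Helper80.HD

theorem result (K : Type) [Field K] [NumberField K] [Algebra K ℂ] (N : ℕ) (f : RMap K N)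
    (m : ℕ) (a : Fin (m + 1) → ℤ) (ha : a (Fin.last m) ≠ 0) (hf : Nonempty (Triv f m a))
    (k : ℕ) (x : ℕ → Fin (N + 1) → ℂ) (hx : f.IsOrbit x) (hk : Algebra.trdeg K (ratioField K (x 0)) = k) :
    ∃ α : ℝ,
      (∀ D : ℕ → ℝ,
        (∃ c₁ c₂ : ℝ, 0 < c₁ ∧ 0 < c₂ ∧ ∀ n, c₁ * arithDeg K k x n ≤ D n ∧ D n ≤ c₂ * arithDeg K k x n) →
          Tendsto (fun n : ℕ => D n ^ (1 / (n : ℝ))) atTop (𝓝 α)) ∧
      ((α = 0 ∧ ∀ᶠ n in atTop, arithDeg K k x n = 0) ∨
        (1 ≤ α ∧
          (∃ j : ℕ, (j = k ∨ j = k + 1) ∧ ∃ l : Fin j → ℂ,
            (∀ i, ∑ s : Fin (m + 1), (a s : ℂ) * l i ^ (s : ℕ) = 0) ∧ α = ‖∏ i, l i‖) ∧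
          ∃ c C : ℝ, 0 < c ∧ ∀ n : ℕ, c * α ^ n ≤ arithDeg K k x n ∧
            arithDeg K k x n ≤ C * ((n : ℝ) + 1) ^ ((m + 1) ^ k + (m + 1) ^ (k + 1)) * α ^ n)) := by
  obtain ⟨α, h1, h2⟩ := final2 K N f m a ha hf k x hx hk
  exact ⟨α, h2, h1⟩

end Pool.Agent.Results.MP_6af536_nt.RegularSelfMaps
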