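import Pool.Agent.Helper80.AD.All

/-!
# Higher arithmetic degrees exist for all dominant self-maps of the torus

Problem MP_6af536_nt.  Let `f(x) = c x^A` be a dominant self-map of the torus `𝔾_m^(N+1)` over a number field `K ⊂ ℂ`: `A` an
integral matrix, `det A ≠ 0`, `c ∈ (K^*)^(N+1)` (every dominant morphism of the torus to itself has this form).  It is a
dominant rational self-map of `ℙ^(N+1)`, in general with indeterminacy.  Let `V` be an irreducible subvariety of dimension
`k` that meets the torus: the `K`-closure of a point `x 0` of the torus over `ℂ`; `x n = f^n (x 0)`.  Put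

  `b_n = [K(V) : K(f^n V)] (h (f^n V) + deg (f^n V))`,

`h` the height of the Chow form.  Then there is `α ≥ 1`, the modulus of a product of at most `k + 1` eigenvalues of `A`, with
`c₁ α^n (n+1)^(-r) ≤ b_n ≤ c₂ (n+1)^r α^n`.  In particular, `D_n^(1/n) → α` for every sequence `D_n` comparable to `b_n`, such as
`D_n = \hat{deg}_{k+1} (F^n, 𝒱)`.

## Proof

Mixed heights of `k + 1` points over the function field of `V` are made exact by a limit over coordinatewise powers.
Their positivity (product formulas) extends them to a monotone multilinear functional on local height functions modulo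
principal functions.  The local heights of `x n` are `max(0, A^n L)`, `L = log |x 0|`, and `2 max(0, ⟨w, L⟩)` is
`|⟨w, L⟩|` up to a principal function, so the linear algebra of `A` gives the growth.
-/

set_option autoImplicit false

open Filter Topology

namespace Pool.Agent.Results.MP_6af536_nt.TorusMaps

open Pool.Agent.Helper80.HD Pool.Agent.Helper80.AD

theorem result (K : Type) [Field K] [NumberField K] [Algebra K ℂ] (N : ℕ)
    (A : Matrix (Fin (N + 1)) (Fin (N + 1)) ℤ) (hA : A.det ≠ 0) (c : Fin (N + 1) → K) (hc : ∀ i, c i ≠ 0)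
    (x : ℕ → Fin (N + 1) → ℂ) (h0 : ∀ i, x 0 i ≠ 0)
    (hx : ∀ n i, x (n + 1) i = algebraMap K ℂ (c i) * ∏ j, x n j ^ A i j)
    (k : ℕ) (hk : Algebra.trdeg K (ratioField K (aff (x 0))) = k) :
    ∃ α : ℝ, 1 ≤ α ∧
      (∃ (j : ℕ) (l : Fin j → ℂ), j ≤ k + 1 ∧
        (∀ i, (A.map (Int.castRingHom ℂ)).charpoly.IsRoot (l i)) ∧ α = ‖∏ i, l i‖) ∧
      (∃ (r : ℕ) (c₁ c₂ : ℝ), 0 < c₁ ∧ ∀ n : ℕ,
        c₁ * α ^ n ≤ ((n : ℝ) + 1) ^ r * arithDeg K k (fun n => aff (x n)) n ∧
        arithDeg K k (fun n => aff (x n)) n ≤ c₂ * ((n : ℝ) + 1) ^ r * α ^ n) ∧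
      ∀ D : ℕ → ℝ,
        (∃ c₁ c₂ : ℝ, 0 < c₁ ∧ 0 < c₂ ∧ ∀ n, c₁ * arithDeg K k (fun n => aff (x n)) n ≤ D n ∧
          D n ≤ c₂ * arithDeg K k (fun n => aff (x n)) n) →
        Tendsto (fun n : ℕ => D n ^ (1 / (n : ℝ))) atTop (𝓝 α) :=
  torus K N A c x k hA hc h0 hx hk

end Pool.Agent.Results.MP_6af536_nt.TorusMaps
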